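import Mathlib
import Pool.Agent.H16.Chomp3

set_option autoImplicit false

namespace Pool.Agent.Results.MP_ba75bf_co.Yes

open Pool.Agent.H16.Chomp

theorem result : ∀ n : ℕ, ∃ (R : Type) (_ : CommRing R), ringKrullDim R = n ∧ BWins R :=
  Pool.Agent.H16.Chomp.main

end Pool.Agent.Results.MP_ba75bf_co.Yes
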